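import Pool.Agent.W31.LD.Defs

/-! # T_Num_branch -/

set_option autoImplicit false

namespace W32LD.NumBranch

open W31LD

lemma exp_le' (t c : ℝ) (ht : t ≤ c) (hc : c < 1) : Real.exp t ≤ 1 / (1 - c) := by
  have h1 : 1 - c ≤ Real.exp (-t) := by
    have := Real.add_one_le_exp (-t)
    linarith
  rw [Real.exp_neg] at h1
  have h2 : (0 : ℝ) < 1 - c := by linarith
  have h3 : 0 < Real.exp t := Real.exp_pos _
  rw [le_div_iff₀ h2]
  have h4 : (1 - c) * Real.exp t ≤ (Real.exp t)⁻¹ * Real.exp t :=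
    mul_le_mul_of_nonneg_right h1 h3.le
  rw [inv_mul_cancel₀ h3.ne'] at h4
  linarith

lemma pow1 (q : ℝ) (hq0 : 0 ≤ q) (hq : q ≤ 501 / 1000) (y : ℕ) (hy : 11 ≤ y) :
    ((y : ℝ) + 4) * q ^ y ≤ 9 / 1000 := by
  induction y, hy using Nat.le_induction with
  | base =>
    have h1 : q ^ 11 ≤ (501 / 1000) ^ 11 := pow_le_pow_left₀ hq0 hq 11
    have h2 : ((501 : ℝ) / 1000) ^ 11 ≤ 1 / 2000 := by norm_num
    push_cast
    linarith
  | succ y hy ih =>
    have hy' : (11 : ℝ) ≤ y := by exact_mod_cast hy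
    have h1 : 0 ≤ q ^ y := pow_nonneg hq0 y
    rw [pow_succ]
    push_cast
    have h2 : ((y : ℝ) + 1 + 4) * q ≤ (y : ℝ) + 4 := by nlinarith
    have h3 : ((y : ℝ) + 1 + 4) * (q ^ y * q) = (((y : ℝ) + 1 + 4) * q) * q ^ y := by ring
    rw [h3]
    exact (mul_le_mul_of_nonneg_right h2 h1).trans ih

lemma pow2 (q : ℝ) (hq0 : 0 ≤ q) (hq : q ≤ 501 / 1000) (x : ℕ) (hx : 12 ≤ x) :
    ((x : ℝ) + 1) * q ^ x ≤ 1 / 50 := by
  induction x, hx using Nat.le_induction with
  | base =>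
    have h1 : q ^ 12 ≤ (501 / 1000) ^ 12 := pow_le_pow_left₀ hq0 hq 12
    have h2 : ((501 : ℝ) / 1000) ^ 12 ≤ 1 / 3000 := by norm_num
    push_cast
    linarith
  | succ x hx ih =>
    have hx' : (12 : ℝ) ≤ x := by exact_mod_cast hx
    have h1 : 0 ≤ q ^ x := pow_nonneg hq0 x
    rw [pow_succ]
    push_cast
    have h2 : ((x : ℝ) + 1 + 1) * q ≤ (x : ℝ) + 1 := by nlinarith
    have h3 : ((x : ℝ) + 1 + 1) * (q ^ x * q) = (((x : ℝ) + 1 + 1) * q) * q ^ x := by ring
    rw [h3]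
    exact (mul_le_mul_of_nonneg_right h2 h1).trans ih

/-- the bracket -/
lemma bracket (u w : ℝ) (hw : 0 ≤ w) (hwu : w ≤ u) (hu : u ≤ 1 / 10000) (x y : ℕ) (hy : 11 ≤ y)
    (α β : ℝ) (hα : 0 ≤ α) (hβ : 0 ≤ β) (hab : α + β ≤ 1)
    (hβg : x ≠ 0 → β ≤ 1 / 2 * Real.exp (-(w * ((x : ℝ) - 2))))
    (hαx : α ≤ ((x : ℝ) + 1) * (1 / 2) ^ x)
    (h0 : x = 0 → α = 0) (h34 : α ≤ 3 / 4) :
    α * Real.exp (w * x) + β / 2 * (Real.exp (2 * u) * Real.exp (w * x)) +
      Real.exp (2 * u) * (((y : ℝ) + 4) * (Real.exp (2 * u) / 2) ^ y) ≤ 1 - 8 * u := by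
  have hu0 : 0 ≤ u := hw.trans hwu
  have e1 : Real.exp (2 * u) ≤ 1001 / 1000 := by
    refine (exp_le' (2 * u) (2 / 10000) (by linarith) (by norm_num)).trans ?_
    norm_num
  have e0 : 0 < Real.exp (2 * u) := Real.exp_pos _
  have hq0 : 0 ≤ Real.exp (2 * u) / 2 := by positivity
  have hq : Real.exp (2 * u) / 2 ≤ 501 / 1000 := by linarith
  have herr : Real.exp (2 * u) * (((y : ℝ) + 4) * (Real.exp (2 * u) / 2) ^ y) ≤ 1 / 100 := by
    have h1 := pow1 _ hq0 hq y hy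
    calc Real.exp (2 * u) * (((y : ℝ) + 4) * (Real.exp (2 * u) / 2) ^ y)
        ≤ Real.exp (2 * u) * (9 / 1000) := mul_le_mul_of_nonneg_left h1 e0.le
      _ ≤ 1001 / 1000 * (9 / 1000) := mul_le_mul_of_nonneg_right e1 (by norm_num)
      _ ≤ 1 / 100 := by norm_num
  rcases Nat.eq_zero_or_pos x with hx | hx
  · have hα0 := h0 hx
    rw [hα0] at hab ⊢
    rw [hx]
    simp only [Nat.cast_zero, mul_zero, Real.exp_zero, mul_one, zero_mul]
    have hβ1 : β / 2 * Real.exp (2 * u) ≤ 1 / 2 * (1001 / 1000) :=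
      mul_le_mul (by linarith) e1 e0.le (by norm_num)
    linarith
  rcases Nat.lt_or_ge x 13 with hx12 | hx12
  · have hxr : (x : ℝ) ≤ 12 := by exact_mod_cast (by omega : x ≤ 12)
    have hx0 : (0 : ℝ) ≤ x := Nat.cast_nonneg _
    have hwx : w * x ≤ 12 * u := by nlinarith
    have e2 : Real.exp (w * x) ≤ Real.exp (12 * u) := Real.exp_le_exp.2 hwx
    have e3 : Real.exp (2 * u) * Real.exp (w * x) ≤ Real.exp (14 * u) := by
      rw [← Real.exp_add]
      apply Real.exp_le_exp.2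
      linarith
    have e4 : Real.exp (12 * u) ≤ Real.exp (14 * u) := Real.exp_le_exp.2 (by linarith)
    have e5 : Real.exp (14 * u) ≤ 102 / 100 := by
      refine (exp_le' (14 * u) (14 / 10000) (by linarith) (by norm_num)).trans ?_
      norm_num
    have h1 : α * Real.exp (w * x) ≤ α * (102 / 100) :=
      mul_le_mul_of_nonneg_left (by linarith) hα
    have h2 : β / 2 * (Real.exp (2 * u) * Real.exp (w * x)) ≤ β / 2 * (102 / 100) :=
      mul_le_mul_of_nonneg_left (by linarith) (by linarith)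
    linarith
  · have hβx := hβg (by omega)
    have hx0 : (0 : ℝ) ≤ x := Nat.cast_nonneg _
    have h1 : α * Real.exp (w * x) ≤ 1 / 50 := by
      have h2 : Real.exp (w * x) ≤ Real.exp (2 * u) ^ x := by
        rw [← Real.exp_nat_mul]
        apply Real.exp_le_exp.2
        nlinarith
      calc α * Real.exp (w * x) ≤ (((x : ℝ) + 1) * (1 / 2) ^ x) * Real.exp (2 * u) ^ x :=
            mul_le_mul hαx h2 (Real.exp_pos _).le (by positivity)
        _ = ((x : ℝ) + 1) * (Real.exp (2 * u) / 2) ^ x := by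
            rw [div_pow, div_pow, one_pow]
            ring
        _ ≤ 1 / 50 := pow2 _ hq0 hq x (by omega)
    have h3 : β * Real.exp (w * x) ≤ 1 / 2 * Real.exp (2 * u) := by
      calc β * Real.exp (w * x) ≤ (1 / 2 * Real.exp (-(w * ((x : ℝ) - 2)))) * Real.exp (w * x) :=
            mul_le_mul_of_nonneg_right hβx (Real.exp_pos _).le
        _ = 1 / 2 * Real.exp (2 * w) := by
            rw [mul_assoc, ← Real.exp_add]
            congr 2
            ring
        _ ≤ 1 / 2 * Real.exp (2 * u) := by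
            refine mul_le_mul_of_nonneg_left (Real.exp_le_exp.2 (by linarith)) (by norm_num)
    have h4 : β / 2 * (Real.exp (2 * u) * Real.exp (w * x)) ≤ 3 / 10 := by
      calc β / 2 * (Real.exp (2 * u) * Real.exp (w * x)) =
            Real.exp (2 * u) / 2 * (β * Real.exp (w * x)) := by ring
        _ ≤ (501 / 1000) * (1 / 2 * (1001 / 1000)) :=
            mul_le_mul hq (h3.trans (by linarith)) (mul_nonneg hβ (Real.exp_pos _).le) (by norm_num)
        _ ≤ 3 / 10 := by norm_num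
    linarith

lemma core (u w θ : ℝ) (hw : 0 ≤ w) (hwu : w ≤ u) (hu : u ≤ 1 / 10000) (hθ : θ ≤ 8 * u)
    (s x y : ℕ) (hs : 1 ≤ s) (hy : 11 ≤ y) (hxy : x ≤ y) (a b : ℝ) (ha : 0 ≤ a) (hb : 0 ≤ b)
    (hab : a + b ≤ 2 ^ x) (hbg : x ≠ 0 → b ≤ 1 / 2 * Real.exp (-(w * ((x : ℝ) - 2))) * 2 ^ x)
    (hax : a ≤ x + 1) (h0 : x = 0 → a = 0) (h34 : a ≤ 3 / 4 * 2 ^ x) :
    a * (1 / 2 * Real.exp (-(w * (((s + y : ℕ) : ℝ) - 2))) * 2 ^ (s + y) +
        1 / 2 * Real.exp (-(u * ((s : ℝ) - 2))) * 2 ^ s)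
      + b * (1 / 2 * Real.exp (-(u * ((s : ℝ) - 2))) * 2 ^ s *
        (1 / 2 * Real.exp (-(w * ((y : ℝ) - 2))) * 2 ^ y))
      + 2 ^ x * (y + 3) * (1 / 2 * Real.exp (-(u * ((s : ℝ) - 2))) * 2 ^ s)
      ≤ (1 - θ) * (1 / 2 * Real.exp (-(w * (((s + (x + y) : ℕ) : ℝ) - 2))) * 2 ^ (s + (x + y))) := by
  have hu0 : 0 ≤ u := hw.trans hwu
  have hsr : (1 : ℝ) ≤ s := by exact_mod_cast hs
  have hyr : (11 : ℝ) ≤ y := by exact_mod_cast hy
  have hxyr : (x : ℝ) ≤ y := by exact_mod_cast hxy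
  have hx0 : (0 : ℝ) ≤ x := Nat.cast_nonneg _
  obtain ⟨G, hG⟩ : ∃ G, G = 1 / 2 * Real.exp (-(w * (((s + (x + y) : ℕ) : ℝ) - 2))) *
    2 ^ (s + (x + y)) := ⟨_, rfl⟩
  have hG0 : 0 ≤ G := by rw [hG]; positivity
  obtain ⟨α, hα⟩ : ∃ α, α = a / 2 ^ x := ⟨_, rfl⟩
  obtain ⟨β, hβ⟩ : ∃ β, β = b / 2 ^ x := ⟨_, rfl⟩
  have h2x : (0 : ℝ) < 2 ^ x := by positivity
  have haα : a = α * 2 ^ x := by rw [hα]; field_simp
  have hbβ : b = β * 2 ^ x := by rw [hβ]; field_simp
  have hα0 : 0 ≤ α := by rw [hα]; positivity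
  have hβ0 : 0 ≤ β := by rw [hβ]; positivity
  have hbr := bracket u w hw hwu hu x y hy α β hα0 hβ0 (by
      rw [hα, hβ, ← add_div, div_le_one h2x]
      exact hab) (fun hx => by
      rw [hβ, div_le_iff₀ h2x]
      exact hbg hx) (by
      rw [hα, div_le_iff₀ h2x]
      have : ((x : ℝ) + 1) * (1 / 2) ^ x * 2 ^ x = x + 1 := by
        rw [mul_assoc, ← mul_pow]
        norm_num
      rw [this]
      exact hax) (fun hx => by
      rw [hα, h0 hx, zero_div]) (by
      rw [hα, div_le_iff₀ h2x]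
      exact h34)
  have hα1 : α ≤ 1 := by
    rw [hα, div_le_one h2x]
    linarith
  -- first term
  have t1 : a * (1 / 2 * Real.exp (-(w * (((s + y : ℕ) : ℝ) - 2))) * 2 ^ (s + y)) =
      α * Real.exp (w * x) * G := by
    have e1 : Real.exp (-(w * (((s + y : ℕ) : ℝ) - 2))) =
        Real.exp (w * x) * Real.exp (-(w * (((s + (x + y) : ℕ) : ℝ) - 2))) := by
      rw [← Real.exp_add]
      congr 1
      push_cast
      ring
    rw [hG, e1, haα, show s + (x + y) = x + (s + y) by ring, pow_add 2 x (s + y)]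
    ring
  -- the value of the other function at `s`
  have hs' : Real.exp (-(u * ((s : ℝ) - 2))) ≤ Real.exp (2 * u) * Real.exp (-(w * s)) := by
    rw [← Real.exp_add]
    apply Real.exp_le_exp.2
    nlinarith
  have t3 : b * (1 / 2 * Real.exp (-(u * ((s : ℝ) - 2))) * 2 ^ s *
        (1 / 2 * Real.exp (-(w * ((y : ℝ) - 2))) * 2 ^ y)) ≤
      β / 2 * (Real.exp (2 * u) * Real.exp (w * x)) * G := by
    have e1 : Real.exp (-(w * s)) * Real.exp (-(w * ((y : ℝ) - 2))) =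
        Real.exp (w * x) * Real.exp (-(w * (((s + (x + y) : ℕ) : ℝ) - 2))) := by
      rw [← Real.exp_add, ← Real.exp_add]
      congr 1
      push_cast
      ring
    have e2 : β / 2 * (Real.exp (2 * u) * Real.exp (w * x)) * G =
        β * 2 ^ x * (1 / 2 * (Real.exp (2 * u) * Real.exp (-(w * s))) * 2 ^ s *
        (1 / 2 * Real.exp (-(w * ((y : ℝ) - 2))) * 2 ^ y)) := by
      rw [hG, pow_add, pow_add]
      linear_combination (-(β * Real.exp (2 * u) * 2 ^ x * 2 ^ y * 2 ^ s / 4)) * e1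
    rw [e2, hbβ]
    refine mul_le_mul_of_nonneg_left ?_ (by positivity)
    refine mul_le_mul_of_nonneg_right ?_ (by positivity)
    refine mul_le_mul_of_nonneg_right ?_ (by positivity)
    exact mul_le_mul_of_nonneg_left hs' (by norm_num)
  have t4 : (a + 2 ^ x * (y + 3)) * (1 / 2 * Real.exp (-(u * ((s : ℝ) - 2))) * 2 ^ s) ≤
      Real.exp (2 * u) * (((y : ℝ) + 4) * (Real.exp (2 * u) / 2) ^ y) * G := by
    have e1 : Real.exp (-(w * s)) ≤ Real.exp (2 * u) ^ y *
        Real.exp (-(w * (((s + (x + y) : ℕ) : ℝ) - 2))) := by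
      rw [← Real.exp_nat_mul, ← Real.exp_add]
      apply Real.exp_le_exp.2
      push_cast
      nlinarith
    have e2 : (a + 2 ^ x * (y + 3)) ≤ 2 ^ x * ((y : ℝ) + 4) := by
      rw [haα]
      nlinarith
    calc (a + 2 ^ x * (y + 3)) * (1 / 2 * Real.exp (-(u * ((s : ℝ) - 2))) * 2 ^ s)
        ≤ (2 ^ x * ((y : ℝ) + 4)) * (1 / 2 * (Real.exp (2 * u) * (Real.exp (2 * u) ^ y *
        Real.exp (-(w * (((s + (x + y) : ℕ) : ℝ) - 2))))) * 2 ^ s) := by
          refine mul_le_mul e2 ?_ (by positivity) (by positivity)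
          refine mul_le_mul_of_nonneg_right ?_ (by positivity)
          refine mul_le_mul_of_nonneg_left ?_ (by norm_num)
          exact hs'.trans (mul_le_mul_of_nonneg_left e1 (Real.exp_pos _).le)
      _ = Real.exp (2 * u) * (((y : ℝ) + 4) * (Real.exp (2 * u) / 2) ^ y) * G := by
          rw [hG, pow_add, pow_add, div_pow]
          field_simp
  have hfin : (α * Real.exp (w * x) + β / 2 * (Real.exp (2 * u) * Real.exp (w * x)) +
      Real.exp (2 * u) * (((y : ℝ) + 4) * (Real.exp (2 * u) / 2) ^ y)) * G ≤ (1 - θ) * G :=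
    mul_le_mul_of_nonneg_right (by linarith) hG0
  rw [← hG]
  nlinarith [t1, t3, t4, hfin]

theorem done : W31LD.T_Num_branch := by
  refine ⟨10000, fun B hB i hi s x y hs hy hxy _ _ a b ha hb hab hbg hax h0 h34 => ?_⟩
  have hBr : (10000 : ℝ) ≤ B := by exact_mod_cast hB
  have hi0 : (0 : ℝ) ≤ i := Nat.cast_nonneg _
  have hlog0 : 0 ≤ Real.log B := Real.log_nonneg (by linarith)
  have hlog : Real.log B ≤ B / 50 := by
    have h1 : Real.log B = 2 * Real.log (√B) := by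
      rw [Real.log_sqrt (by linarith)]
      ring
    have h2 : Real.log (√B) ≤ √B - 1 := Real.log_le_sub_one_of_pos (by positivity)
    have h3 : (100 : ℝ) ≤ √B := by
      apply Real.le_sqrt_of_sq_le
      linarith
    have h4 : √(B : ℝ) * √(B : ℝ) = B := Real.mul_self_sqrt (by linarith)
    rw [h1]
    nlinarith
  have hmu : mu B i ≤ 1 / 10000 := by
    unfold mu
    rw [div_le_iff₀ (by positivity)]
    linarith
  have hmu0 : 0 ≤ mu B (i + 1) := by
    unfold mu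
    positivity
  have hmu1 : mu B (i + 1) ≤ mu B i := by
    unfold mu
    apply div_le_div_of_nonneg_left hlog0 (by positivity)
    push_cast
    linarith
  have hθ : th B i (x + y) ≤ 8 * mu B i := by
    unfold th
    have h1 : ((3 : ℝ) / 4) ^ (x + y) ≤ 1 := pow_le_one₀ (by norm_num) (by norm_num)
    have h2 : 0 ≤ 8 * mu B i := by linarith
    nlinarith
  have key := core (mu B i) (mu B (i + 1)) (th B i (x + y)) hmu0 hmu1 hmu hθ s x y hs hy hxy a b ha
    hb hab (fun hx => by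
      have := hbg
      unfold gg at this
      rw [if_neg hx] at this
      exact this) hax h0 h34
  unfold gg
  rw [if_neg (by omega : s + y ≠ 0), if_neg (by omega : s ≠ 0), if_neg (by omega : y ≠ 0),
    if_neg (by omega : s + (x + y) ≠ 0)]
  exact key

end W32LD.NumBranch
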